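import Mathlib
import Pool.Agent.H.MP_a6f573_an.C

namespace Pool.Agent.Results.MP_a6f573_an.NoTop
open MeasureTheory
open scoped NNReal

variable {S : Type} [TopologicalSpace S] [MeasurableSpace S]

def E (A : Subalgebra ℂ C(S, ℂ)) (μ : FiniteMeasure S) : Set (FiniteMeasure S) :=
  {ν | (ν : Measure S) ≪ μ ∧ ∀ f ∈ A, ∫ s, f s ∂(ν : Measure S) = ∫ s, f s ∂(μ : Measure S)}

noncomputable def logInt (ν : FiniteMeasure S) (f : C(S, ℂ)) : EReal :=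
  ((∫⁻ s, (ENNReal.log ‖f s‖ₑ).toENNReal ∂(ν : Measure S) : ENNReal) : EReal) -
    ((∫⁻ s, (-ENNReal.log ‖f s‖ₑ).toENNReal ∂(ν : Measure S) : ENNReal) : EReal)

theorem result : ∃ (S : Type) (_ : TopologicalSpace S) (_ : CompactSpace S) (_ : T2Space S)
    (_ : MeasurableSpace S) (_ : BorelSpace S) (A : Subalgebra ℂ C(S, ℂ)) (μ : FiniteMeasure S),
    IsClosed (A : Set C(S, ℂ)) ∧
    (∀ φ : A →ₐ[ℂ] ℂ, Continuous φ → ∃! s : S, ∀ f : A, φ f = (f : C(S, ℂ)) s) ∧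
    (∀ f ∈ A, ∀ h ∈ A, f * h = 1 → ∃ g ∈ A, ∀ s, f s = Complex.exp (g s)) ∧
    μ ∈ (closure (E A μ)).extremePoints ℝ≥0 ∧
    Dense {u : Lp ℂ 1 (μ : Measure S) | ∃ f ∈ A, ∃ g ∈ A,
      u =ᵐ[(μ : Measure S)] fun s => f s + star (g s)} ∧
    (¬ ∃ σ ∈ closure (E A μ), ∀ ν ∈ closure (E A μ), ∀ f ∈ A, logInt ν f ≤ logInt σ f) ∧
    (¬ ∃ σ ∈ E A μ, ∀ ν ∈ E A μ, ∀ f ∈ A, logInt ν f ≤ logInt σ f) := by
  open Pool.Agent.H.MP_a6f573_an in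
  exact ⟨Pool.Agent.H.MP_a6f573_an.S, inferInstance, inferInstance, inferInstance, inferInstance,
    inferInstance, A, mu H1, A_closed, chars, exps, extreme H1 (fun _ => H1_nn _) R1,
    dense H1 (fun _ => H1_nn _) R1,
    fun ⟨σ, h1, h2⟩ => no_top σ h1 fun ν hν => h2 ν (subset_closure hν),
    fun ⟨σ, h1, h2⟩ => no_top σ (subset_closure h1) h2⟩

end Pool.Agent.Results.MP_a6f573_an.NoTop
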